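import Pool.Agent.Lib.MP_c052b4_al.AS.Iface

/-!
# The assembly map in degree one
-/

set_option autoImplicit false

namespace Pool.Agent.Lib.MP_c052b4_al

open Matrix TensorProduct

universe u v w

section Defs

variable (R : Type u) [Ring R] (G : Type v) [Group G]

/-- The abelian group `G_ab ⊗ K₀(R)`. -/
noncomputable def AbK : AddCommGrpCat.{max u v} :=
  AddCommGrpCat.of (Additive (Abelianization G) ⊗[ℤ] KZero R)

/-- The abelian group `K₁(R) ⊕ (G_ab ⊗ K₀(R))`, the source of the assembly map `A₁`. -/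
noncomputable def HOne : AddCommGrpCat.{max u v} := AddCommGrpCat.of (K1Grp R × AbK R G)

variable {R G}

/-- The element `g ⊗ k` of `K₁(R) ⊕ (G_ab ⊗ K₀(R))`. -/
noncomputable def inTensor (g : G) (k : KZero R) : HOne R G :=
  ((0, Additive.ofMul (Abelianization.of g) ⊗ₜ[ℤ] k) :
    K1Grp R × (Additive (Abelianization G) ⊗[ℤ] KZero R))

/-- The element `x ∈ K₁(R)` of `K₁(R) ⊕ (G_ab ⊗ K₀(R))`. -/
noncomputable def inK (x : K1Grp R) : HOne R G :=
  ((x, 0) : K1Grp R × (Additive (Abelianization G) ⊗[ℤ] KZero R))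

/-- `A` is the assembly map in degree one `K₁(R) ⊕ (G_ab ⊗ K₀(R)) → K₁(R[G])`: on `K₁(R)` it is
induced by the inclusion `R → R[G]`, and it sends `g ⊗ [e]`, for `g ∈ G` and an idempotent matrix
`e` over `R`, to the class of the invertible matrix `(1 - e) + g e`. -/
def IsAssemblyOne (A : HOne R G →+ K1Grp (MonoidAlgebra R G)) : Prop :=
  (∀ x : K1Grp R, A (inK x) =
    k1Map (MonoidAlgebra.singleOneRingHom : R →+* MonoidAlgebra R G) x) ∧
  ∀ (g : G) (e : IdemMat R) (B : GLk (MonoidAlgebra R G) e.size), B.val = elMat g e.mat →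
    A (inTensor g (KZero.cls e)) = k1Cls B

variable (R G)

/-- The image of `tors(G_ab) ⊗ K₀(R)` in `K₁(R) ⊕ (G_ab ⊗ K₀(R))`: the subgroup generated by the
elements `g ⊗ k` for which the class of `g` in `G_ab` has finite order. -/
noncomputable def torsionPart : AddSubgroup (HOne R G) :=
  AddSubgroup.closure {y | ∃ (g : G) (k : KZero R),
    IsOfFinOrder (Abelianization.of g) ∧ y = inTensor g k}

/-- The assembly map `A₁ : K₁(R) ⊕ (G_ab ⊗ K₀(R)) → K₁(R[G])` is surjective, its kernel is contained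
in the image of `tors(G_ab) ⊗ K₀(R)` (so it is bijective if `G_ab` is torsionfree), and it is
bijective if `R` is commutative, nonzero and all finitely generated projective `R`-modules are
stably free. -/
def AssemblyOne : Prop :=
  ∃ A : HOne R G →+ K1Grp (MonoidAlgebra R G), IsAssemblyOne A ∧ Function.Surjective A ∧
    (∀ z, A z = 0 → z ∈ torsionPart R G) ∧
    ((∀ x y : R, x * y = y * x) → Nontrivial R → ProjectivesStablyFree R → Function.Injective A)

end Defs

section Final

variable {R : Type u} [Ring R] {G : Type v} [Group G]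

theorem mem_torsionPart {y : Additive (Abelianization G) ⊗[ℤ] KZero R} (hy : y ∈ torPart R G) :
    (((0, y) : K1Grp R × (Additive (Abelianization G) ⊗[ℤ] KZero R)) : HOne R G) ∈
      torsionPart R G := by
  have h : torPart R G ≤ (torsionPart R G).comap (AddMonoidHom.inr (K1Grp R)
      (Additive (Abelianization G) ⊗[ℤ] KZero R)) := by
    unfold torPart
    rw [AddSubgroup.closure_le]
    rintro _ ⟨a, n, k, hn, ha, rfl⟩
    obtain ⟨g, rfl⟩ : ∃ g : G, Additive.ofMul (Abelianization.of g) = a := by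
      obtain ⟨g, hg⟩ := QuotientGroup.mk_surjective a.toMul
      exact ⟨g, congrArg Additive.ofMul hg⟩
    apply AddSubgroup.subset_closure
    refine ⟨g, k, isOfFinOrder_iff_pow_eq_one.2 ⟨n, hn, ?_⟩, rfl⟩
    exact ha
  exact h hy

theorem assemblyOne_of_imA (h : imA R G = ⊤) : AssemblyOne R G := by
  obtain ⟨A, h1, h2, h3, h4⟩ := exists_asm1 R G h
  refine ⟨A, ⟨h1.1, h1.2⟩, h2, ?_, h4⟩
  rintro ⟨x, y⟩ hz
  obtain ⟨hx, hy⟩ := h3 (x, y) hz
  have hx' : x = 0 := hx
  subst hx'
  exact mem_torsionPart hy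

theorem AssemblyOne.imA_eq_top (h : AssemblyOne R G) : imA R G = ⊤ := by
  obtain ⟨A, h1, h2, -, -⟩ := h
  exact IsAsm1.imA_eq_top (A := A) ⟨h1.1, h1.2⟩ h2

end Final

end Pool.Agent.Lib.MP_c052b4_al
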