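import Pool.Agent.Lib.MP_c052b4_al.Mg.G082

/-!
# The assembly map in degree one
-/

set_option autoImplicit false

namespace Pool.Agent.Lib.MP_c052b4_al

open Matrix TensorProduct

universe u v w

/-- `A` is the assembly map in degree one `K₁(R) ⊕ (G_ab ⊗ K₀(R)) → K₁(R[G])`: on `K₁(R)` it is
induced by the inclusion `R → R[G]`, and it sends `g ⊗ [e]`, for `g ∈ G` and an idempotent matrix
`e` over `R`, to the class of the invertible matrix `(1 - e) + g e`. -/
def IsAsm1 (R : Type u) [Ring R] (G : Type v) [Group G]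
    (A : K1Grp R × (Additive (Abelianization G) ⊗[ℤ] KZero R) →+ K1Grp (MonoidAlgebra R G)) :
    Prop :=
  (∀ x : K1Grp R, A (x, 0) = k1Map (MonoidAlgebra.singleOneRingHom : R →+* MonoidAlgebra R G) x) ∧
  ∀ (g : G) (e : IdemMat R) (B : GLk (MonoidAlgebra R G) e.size), B.val = elMat g e.mat →
    A (0, Additive.ofMul (Abelianization.of g) ⊗ₜ[ℤ] KZero.cls e) = k1Cls B

/-- The image of `tors(G_ab) ⊗ K₀(R)` in `G_ab ⊗ K₀(R)`: the subgroup generated by the elements
`a ⊗ k` for which `a` has finite order. -/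
noncomputable def torPart (R : Type u) [Ring R] (G : Type v) [Group G] :
    AddSubgroup (Additive (Abelianization G) ⊗[ℤ] KZero R) :=
  AddSubgroup.closure {y | ∃ (a : Additive (Abelianization G)) (n : ℕ) (k : KZero R),
    0 < n ∧ n • a = 0 ∧ y = a ⊗ₜ[ℤ] k}

section Constr

variable (R : Type u) [Ring R] (G : Type v) [Group G]

/-- The assembly map in degree one. -/
noncomputable def asmOne :
    K1Grp R × (Additive (Abelianization G) ⊗[ℤ] KZero R) →+ K1Grp (MonoidAlgebra R G) :=
  (k1Map (MonoidAlgebra.singleOneRingHom : R →+* MonoidAlgebra R G)).coprod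
    ((psi (MonoidAlgebra R G)).comp (tens R G))

theorem isAsm1_asmOne : IsAsm1 R G (asmOne R G) := by
  constructor
  · intro x
    change k1Map _ x + psi _ (tens R G 0) = _
    rw [map_zero, map_zero, add_zero]
  · intro g e B hB
    change k1Map _ 0 + psi _ (tens R G (Additive.ofMul (Abelianization.of g) ⊗ₜ[ℤ] KZero.cls e)) = _
    rw [map_zero, zero_add, tens_tmul, tauAb_of, tauG_cls, psi_kf]
    congr 1
    apply Units.ext
    rw [hB]
    exact elMat_eq g e

variable {R G}

theorem phi_asmOne (z : K1Grp R × (Additive (Abelianization G) ⊗[ℤ] KZero R)) :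
    phi _ (asmOne R G z) = asm R G (phi R z.1, z.2) := by
  change phi _ (k1Map _ z.1 + psi _ (tens R G z.2)) = KOne.map (cG R G) (phi R z.1) + tens R G z.2
  rw [map_add, phi_map, phi_psi]

theorem asmOne_ker {z : K1Grp R × (Additive (Abelianization G) ⊗[ℤ] KZero R)}
    (hz : asmOne R G z = 0) : z.1 = 0 ∧ z.2 ∈ torPart R G := by
  have h := asm_ker (phi R z.1, z.2) (by rw [← phi_asmOne, hz, map_zero])
  refine ⟨?_, h.2⟩
  apply phi_injective
  rw [map_zero]
  exact h.1

theorem asmOne_surjective (h : imA R G = ⊤) : Function.Surjective (asmOne R G) := by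
  intro y
  have h1 : phi _ y ∈ (asm R G).range := by
    rw [range_asm, imA_eq_top_iff.1 h]
    trivial
  obtain ⟨⟨a, b⟩, hab⟩ := h1
  refine ⟨(psi R a, b), ?_⟩
  apply phi_injective
  rw [phi_asmOne, phi_psi]
  exact hab

theorem tens_unit (a : Additive (Abelianization G)) :
    asmOne R G (0, a ⊗ₜ[ℤ] KZero.cls (IdemMat.one R 1)) = groupCls R G a := by
  obtain ⟨g, rfl⟩ : ∃ g : G, Additive.ofMul (Abelianization.of g) = a := by
    obtain ⟨g, hg⟩ := QuotientGroup.mk_surjective a.toMul
    exact ⟨g, congrArg Additive.ofMul hg⟩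
  rw [groupCls_of]
  refine (isAsm1_asmOne R G).2 g (IdemMat.one R 1) (unitMat (gU R g)) ?_
  rw [← elU_one]
  exact elMat_eq g (IdemMat.one R 1)

end Constr

theorem exists_tmul_one {R : Type u} [CommRing R] (hP : ProjectivesStablyFree R) {G : Type v}
    [Group G] (y : Additive (Abelianization G) ⊗[ℤ] KZero R) :
    ∃ a : Additive (Abelianization G), y = a ⊗ₜ[ℤ] KZero.cls (IdemMat.one R 1) := by
  induction y with
  | zero => exact ⟨0, (TensorProduct.zero_tmul _ _).symm⟩
  | add y z hy hz =>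
    obtain ⟨a, rfl⟩ := hy
    obtain ⟨b, rfl⟩ := hz
    exact ⟨a + b, (TensorProduct.add_tmul _ _ _).symm⟩
  | tmul a k =>
    obtain ⟨n, rfl⟩ : ∃ n : ℤ, k = n • KZero.cls (IdemMat.one R 1) := by
      obtain ⟨p, q, hpq⟩ := KZero.exists_sub (k)
      obtain ⟨n, hn⟩ := kzero_of_stablyFree hP p
      obtain ⟨m, hm⟩ := kzero_of_stablyFree hP q
      refine ⟨n - m, ?_⟩
      rw [sub_smul]
      have h := hpq
      rw [hn, hm] at h
      exact h
    exact ⟨n • a, by rw [TensorProduct.tmul_smul, TensorProduct.smul_tmul']⟩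

theorem asmOne_injective_comm {R : Type u} [CommRing R] [Nontrivial R] {G : Type v} [Group G]
    (hP : ProjectivesStablyFree R) : Function.Injective (asmOne R G) := by
  rw [injective_iff_map_eq_zero]
  rintro ⟨x, y⟩ h
  obtain ⟨a, rfl⟩ := exists_tmul_one hP y
  have h1 : asmOne R G (x, a ⊗ₜ[ℤ] KZero.cls (IdemMat.one R 1)) =
      assemblyOne R G (x, a) := by
    have h2 : ((x, a ⊗ₜ[ℤ] KZero.cls (IdemMat.one R 1)) :
        K1Grp R × (Additive (Abelianization G) ⊗[ℤ] KZero R)) =
        (x, 0) + (0, a ⊗ₜ[ℤ] KZero.cls (IdemMat.one R 1)) := by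
      rw [Prod.mk_add_mk, add_zero, zero_add]
    rw [h2, map_add, tens_unit, (isAsm1_asmOne R G).1]
    rfl
  rw [h1] at h
  have h3 : ((x, a) : K1Grp R × Additive (Abelianization G)) = 0 :=
    assemblyOne_injective R G (by rw [h, map_zero])
  have hx : x = 0 := congrArg Prod.fst h3
  have ha : a = 0 := congrArg Prod.snd h3
  subst hx; subst ha
  rw [TensorProduct.zero_tmul]
  rfl

theorem asmOne_injective_of_comm {R : Type u} [i : Ring R] (hc : ∀ x y : R, x * y = y * x)
    (hn : Nontrivial R) {G : Type v} [Group G] (hP : ProjectivesStablyFree R) :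
    Function.Injective (asmOne R G) := by
  obtain ⟨c, hc'⟩ : ∃ c : CommRing R, c.toRing = i := ⟨{ i with mul_comm := hc }, rfl⟩
  subst hc'
  exact asmOne_injective_comm hP

/-- All about the assembly map in degree one. -/
theorem exists_asm1 (R : Type u) [Ring R] (G : Type v) [Group G] (h : imA R G = ⊤) :
    ∃ A : K1Grp R × (Additive (Abelianization G) ⊗[ℤ] KZero R) →+ K1Grp (MonoidAlgebra R G),
      IsAsm1 R G A ∧ Function.Surjective A ∧
      (∀ z, A z = 0 → z.1 = 0 ∧ z.2 ∈ torPart R G) ∧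
      ((∀ x y : R, x * y = y * x) → Nontrivial R → ProjectivesStablyFree R →
        Function.Injective A) := by
  exact ⟨asmOne R G, isAsm1_asmOne R G, asmOne_surjective h, fun z => asmOne_ker,
    fun hc hn hP => asmOne_injective_of_comm hc hn hP⟩

/-- An assembly map in degree one has its image in `imA`. -/
theorem IsAsm1.imA_eq_top {R : Type u} [Ring R] {G : Type v} [Group G]
    {A : K1Grp R × (Additive (Abelianization G) ⊗[ℤ] KZero R) →+ K1Grp (MonoidAlgebra R G)}
    (hA : IsAsm1 R G A) (hs : Function.Surjective A) : imA R G = ⊤ := by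
  rw [eq_top_iff]
  intro y hy
  clear hy
  obtain ⟨⟨x, t⟩, rfl⟩ := hs y
  clear hs
  have h1 : A (x, t) = A (x, 0) + A (0, t) := by
    rw [← map_add, Prod.mk_add_mk, add_zero, zero_add]
  rw [h1]
  refine AddSubgroup.add_mem _ ?_ ?_
  · rw [hA.1]
    exact AddSubgroup.mem_sup_left ⟨x, rfl⟩
  · clear h1
    induction t with
    | zero =>
      change A 0 ∈ _
      rw [map_zero]
      exact AddSubgroup.zero_mem _
    | add s t hs ht =>
      have h2 : A (0, s + t) = A (0, s) + A (0, t) := by
        rw [← map_add, Prod.mk_add_mk, add_zero]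
      rw [h2]
      exact AddSubgroup.add_mem _ hs ht
    | tmul a k =>
      obtain ⟨g, rfl⟩ : ∃ g : G, Additive.ofMul (Abelianization.of g) = a := by
        obtain ⟨g, hg⟩ := QuotientGroup.mk_surjective a.toMul
        exact ⟨g, congrArg Additive.ofMul hg⟩
      obtain ⟨p, q, rfl⟩ := KZero.exists_sub k
      have h2 : A (0, Additive.ofMul (Abelianization.of g) ⊗ₜ[ℤ] (KZero.cls p - KZero.cls q)) =
          A (0, Additive.ofMul (Abelianization.of g) ⊗ₜ[ℤ] KZero.cls p) -
          A (0, Additive.ofMul (Abelianization.of g) ⊗ₜ[ℤ] KZero.cls q) := by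
        rw [← map_sub, Prod.mk_sub_mk, sub_zero, TensorProduct.tmul_sub]
      rw [h2, hA.2 g p (elU g p) (elMat_eq g p), hA.2 g q (elU g q) (elMat_eq g q)]
      refine AddSubgroup.sub_mem _ ?_ ?_ <;>
      · apply AddSubgroup.mem_sup_right
        apply AddSubgroup.subset_closure
        exact ⟨g, _, _, _, IdemMat.idem _, elMat_eq g _, rfl⟩

end Pool.Agent.Lib.MP_c052b4_al
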